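import Pool.Agent.Q73.LS.Cover

/-!
# Chow-Kunneth decompositions of a variety and of its covers

`𝒱` is a class of smooth projective (geometrically) irreducible varieties over the field `k` (for
example the complex numbers) closed under products (for example all of them), `C` the Chow groups with
rational coefficients (in the form of their formal properties, `IsChowProj`) and `H` a Weil cohomology
theory (`IsWeilProj`), for example singular cohomology.

Let `f : X → Y` be a morphism of degree `c ≠ 0` of varieties of the same dimension `n`, such that
`f^* : H^i(Y) → H^i(X)` is onto for `i < n` (`OntoBelow`), for instance a finite covering of `Y` branched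
along an ample divisor. The following are equivalent:

* `Y` has a Chow-Kunneth decomposition;
* `Y` has a Chow-Kunneth decomposition `π` and `X` has one, `p`, with `p_i = c⁻¹ f^* π_i f_*` for `i ≠ n`;
* `X` has a Chow-Kunneth decomposition `p` such that for `P = ∑_{i ≠ n} p_i` the **one**
  homologically trivial correspondence `P ∘ (Δ - c⁻¹ f^* f_*) ∘ P` is nilpotent.

So for instance all smooth coverings of abelian varieties and of products of curves and surfaces,
branched along ample divisors, have Chow-Kunneth decompositions. In the last condition the
decomposition of `X` is not assumed to be related to `f`. No finite-dimensionality is assumed.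
-/

open CategoryTheory AlgebraicGeometry

set_option autoImplicit false

universe u v w

namespace Pool.Agent.Results.MP_524776_ag.CoversOfVarieties

open Pool.Agent.H914 Pool.Agent.W492.BB Pool.Agent.TH133 Pool.Agent.W550.Corr Pool.Agent.Y107
  Pool.Agent.Q73.LS

/-- **Chow-Kunneth decompositions of covers.** For `f : X → Y` of degree `c` with isomorphic
cohomology outside the middle degree, `Y` has a Chow-Kunneth decomposition if and only if `X` has one
for which `P ∘ (Δ - c⁻¹ f^* f_*) ∘ P` is nilpotent, and then `X` has one induced from `Y`. -/
theorem result {k : Type u} [Field k] {𝒱 : VarClass k} (C : TheoryData.{u, v, 0} 𝒱 ℚ)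
    [IsChowProj C] {K : Type w} [Field K] (H : WeilTheoryData.{u, v, w} C K) [IsWeilProj H]
    (X Y : 𝒱.Obj) (f : X ⟶ Y) (c : ℚ) (hc : c ≠ 0) (hd : Y.dim = X.dim)
    (hf : C.push f 1 = c • 1) (hO : OntoBelow H f) :
    [∃ π, IsCK H Y π,
      ∃ π p, IsCK H Y π ∧ IsCK H X p ∧ ∀ i ≤ 2 * X.dim, i ≠ X.dim →
        p i = c⁻¹ • C.comp (C.comp (C.graph f) (π i)) (C.cograph f),
      ∃ p, IsCK H X p ∧ ∃ n, corPow C
        (C.comp (C.comp (outer C p) (dg C X - coverPart C f c)) (outer C p)) n = 0].TFAE :=
  cover_tfae hc hd hf hO

end Pool.Agent.Results.MP_524776_ag.CoversOfVarieties
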