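import Pool.Agent.Q69.Cut.Retract

/-!
# Chow-Kunneth decompositions: reduction to one idempotent on rational varieties

`𝒱` is a class of smooth projective varieties closed under products (for example all complex ones),
`C` the Chow groups with rational coefficients (in the form of their formal properties,
`IsChowProj`) and `H` a Weil cohomology theory (`IsWeilProj`). `R` is a set of varieties of the class
such that for every `X` of dimension `d` there is `Z` in `R` of dimension `2 d + 2` for which
`h(X)(-l)` is a direct factor of `h(Z)`, `1 ≤ l ≤ d + 1` (`Swallows`). For example `R` can be the set of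
rational varieties: embed `X` in the projective space of dimension `2 d + 2` and blow it up.

A Chow-Kunneth decomposition `π` does not raise weights if `π_b ∘ g ∘ π_a = 0` for all `a < b` and
all self-correspondences `g` of degree zero. The theorem: all varieties have Chow-Kunneth
decompositions which do not raise weights if and only if all varieties in `R` have one, and if and
only if every `Z` in `R` has a triangular lower half: an idempotent `e ∈ CH^n(Z × Z)`, `n = dim Z`,
acting on the cohomology as the projector onto `⊕_(m < n) H^m(Z)`, with `(1 - e) ∘ g ∘ e = 0` for all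
`g ∈ CH^n(Z × Z)`. Then all varieties also have self-dual decompositions of this kind.
-/

open CategoryTheory AlgebraicGeometry

set_option autoImplicit false

universe u v w

namespace Pool.Agent.Results.MP_524776_ag.RationalVarieties

open Pool.Agent.H914 Pool.Agent.W492.BB Pool.Agent.TH133 Pool.Agent.Q69.Cut

/-- For every `X` of dimension `d` the set `R` contains a variety `Z` of dimension `2 d + 2` such
that `h(X)(-l)` is a direct factor of `h(Z)` for `1 ≤ l ≤ d + 1`. (The set of rational varieties has
this property: take for `Z` the projective space of dimension `2 d + 2` blown up along `X`.) -/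
def Swallows {k : Type u} [Field k] {𝒱 : VarClass k} (C : TheoryData.{u, v, 0} 𝒱 ℚ)
    (R : 𝒱.Obj → Prop) : Prop :=
  ∀ X : 𝒱.Obj, ∃ Z : 𝒱.Obj, R Z ∧ Z.dim = 2 * X.dim + 2 ∧
    ∀ l : ℕ, 1 ≤ l → l ≤ X.dim + 1 → TwistedFactor C X Z l

/-- The existence of Chow-Kunneth decompositions which do not raise weights, for all varieties, is
equivalent to the existence of triangular lower halves of the varieties in `R`. -/
theorem result {k : Type u} [Field k] {𝒱 : VarClass k} (C : TheoryData.{u, v, 0} 𝒱 ℚ)
    [IsChowProj C] {K : Type w} [Field K] (H : WeilTheoryData.{u, v, w} C K) [IsWeilProj H]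
    (R : 𝒱.Obj → Prop) (hR : Swallows C R) :
    [∀ X : 𝒱.Obj, ∃ π : ℕ → C.A (X.prod X), IsCK H X π ∧ NotRaising C X π,
      ∀ X : 𝒱.Obj, ∃ π : ℕ → C.A (X.prod X), IsCK H X π ∧ IsSelfDual C π ∧ NotRaising C X π,
      ∀ Z : 𝒱.Obj, R Z → ∃ π : ℕ → C.A (Z.prod Z), IsCK H Z π ∧ NotRaising C Z π,
      ∀ Z : 𝒱.Obj, R Z → ∃ e : C.A (Z.prod Z), IsHalf H Z e ∧ Triangular C Z e].TFAE := by
  tfae_have 1 → 3 := fun h Z _ => h Z
  tfae_have 3 → 4 := by
    intro h Z hZ
    obtain ⟨π, h1, h2⟩ := h Z hZ
    exact triangular_of_NR (P := π) h1 (of_notRaising h2)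
  tfae_have 4 → 2 := by
    intro h X
    obtain ⟨Z, hZ, hd, hl⟩ := hR X
    obtain ⟨E, hE, ht⟩ := h Z hZ
    obtain ⟨Q, hQ, hN⟩ := NR_of_twists hd (fun l h1 h2 => retr_of_factor (hl l h1 h2))
      (TI_of_triangular hE ht) (half_iff.1 hE)
    obtain ⟨π, h3, h4, h5⟩ := selfDual_of_NR hQ hN
    exact ⟨π, h3, h4, notRaising_of h5⟩
  tfae_have 2 → 1 := by
    intro h X
    obtain ⟨π, h1, _, h2⟩ := h X
    exact ⟨π, h1, h2⟩
  tfae_finish

end Pool.Agent.Results.MP_524776_ag.RationalVarieties
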