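import Pool.Agent.Q82.CK.EqMain

/-!
# Chow-Kunneth decompositions commuting with a semisimple algebra of correspondences

`𝒱` is a class of smooth projective (geometrically) irreducible varieties over the field `k` closed under
products (for example all of them), `C` the Chow groups with rational coefficients (in the form of their
formal properties, `IsChowProj`) and `H` a Weil cohomology theory (`IsWeilProj`).

Let `S` be a finite-dimensional semisimple algebra of self-correspondences of degree zero of `X`
(modulo rational equivalence), for instance the span of a finite group of self-correspondences. We prove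
that the following are equivalent.

1. `X` has a Chow-Kunneth decomposition `π_0, …, π_{2d}` whose projectors commute with `S`, so that
   `S` acts on the motives `h^i(X)` and `h(X) = ⊕ h^i(X)` is a decomposition of motives with an
   action of `S`.

2. There is one self-correspondence which commutes with `S`, acts on `H^i(X)` as multiplication by
   `i`, for all `i`, and is algebraic over `ℚ`.

3. `X` has a Chow-Kunneth decomposition which together with `S` generates a finite-dimensional
   algebra of correspondences.

4. There is a finite-dimensional algebra of self-correspondences which contains `S` and for each `i`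
   an element acting on the cohomology as the projection onto `H^i(X)`.

The first theorem applied to the algebra generated by a projector gives: if `h(Y)` is a direct summand of
`h(X)(r)`, cut out by the projector `p`, and some lifts of the Kunneth projectors of `X` generate with
`p` a finite-dimensional algebra, then `Y` has a Chow-Kunneth decomposition.

No condition is imposed on the homologically trivial correspondences.
-/

open CategoryTheory AlgebraicGeometry

set_option autoImplicit false

universe u v w

namespace Pool.Agent.Results.MP_524776_ag.SemisimpleAlgebras

open Pool.Agent.H914 Pool.Agent.H914.VarClass Pool.Agent.H914.VarClass.Obj Pool.Agent.W492.BB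
  Pool.Agent.W550.Corr Pool.Agent.TH133 Pool.Agent.Q82.CK

/-- **Chow-Kunneth decompositions commuting with a semisimple algebra.** -/
theorem result {k : Type u} [Field k] {𝒱 : VarClass k} (C : TheoryData.{u, v, 0} 𝒱 ℚ)
    [IsChowProj C] {K : Type w} [Field K] (H : WeilTheoryData.{u, v, w} C K) [IsWeilProj H]
    (X : 𝒱.Obj) :
    (∀ S : Submodule ℚ (C.A (X.prod X)), IsSemisimpleAlg C S → List.TFAE
      [HasCKCommuting H X S, HasDegreeOpCommuting H X S, HasCKFinite H X S,
        HasLiftFinite H X S]) ∧
    (∀ (G : Type) [Group G] [Finite G] (γ : G → C.A (X.prod X)), IsAction C γ →
      IsSemisimpleAlg C (Submodule.span ℚ (Set.range γ))) ∧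
    (∀ (Y : 𝒱.Obj) (r : ℤ) (a : C.A (Y.prod X)) (b : C.A (X.prod Y)), IsSummand C r a b →
      HasLiftFinite H X {C.comp b a} → ∃ π, IsCK H Y π) :=
  ⟨fun _ hS => eq_tfae hS, fun _ _ _ _ h => semisimple_of_action h,
    fun _ _ _ _ h hfin => summand_of_finite h hfin⟩

end Pool.Agent.Results.MP_524776_ag.SemisimpleAlgebras
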