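import Pool.Agent.Q82.CK.Main

/-!
# Chow-Kunneth decompositions from two independent parts

`𝒱` is a class of smooth projective (geometrically) irreducible varieties over the field `k` (for
example the complex numbers) closed under products (for example all of them), `C` the Chow groups with
rational coefficients (in the form of their formal properties, `IsChowProj`) and `H` a Weil cohomology
theory (`IsWeilProj`), for example singular cohomology.

Let `X` be a variety of dimension `d` and `I` a set of degrees, for instance the degrees `≤ m`, or the
even degrees. Then `X` has a Chow-Kunneth decomposition if and only if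

* there are mutually orthogonal idempotent correspondences `p_i`, `i ∈ I`, acting on the cohomology as
  the projections onto `H^i(X)`,
* there are mutually orthogonal idempotent correspondences `q_j`, `j ∉ I`, acting on the cohomology as
  the projections onto `H^j(X)`,

such that with `P = ∑ p_i` and `Q = ∑ q_j` the **one** homologically trivial correspondence `P ∘ Q` is
nilpotent. The two families can be constructed independently of each other; no further relation between
them is needed.
-/

open CategoryTheory AlgebraicGeometry

set_option autoImplicit false

universe u v w

namespace Pool.Agent.Results.MP_524776_ag.TwoParts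

open Pool.Agent.H914 Pool.Agent.W492.BB Pool.Agent.TH133 Pool.Agent.Q82.CK

/-- **Chow-Kunneth decompositions exist if and only if the two parts exist, with `P ∘ Q` nilpotent.** -/
theorem result {k : Type u} [Field k] {𝒱 : VarClass k} (C : TheoryData.{u, v, 0} 𝒱 ℚ)
    [IsChowProj C] {K : Type w} [Field K] (H : WeilTheoryData.{u, v, w} C K) [IsWeilProj H]
    (X : 𝒱.Obj) (I : Finset ℕ) (hI : I ⊆ Finset.range (2 * X.dim + 1)) :
    (∃ π, IsCK H X π) ↔
      ∃ p q, IsPartialCK H X I p ∧ IsPartialCK H X (Finset.range (2 * X.dim + 1) \ I) q ∧
        NilpotentCor C (C.comp (∑ i ∈ Finset.range (2 * X.dim + 1) \ I, q i) (∑ i ∈ I, p i)) :=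
  ck_iff hI

end Pool.Agent.Results.MP_524776_ag.TwoParts
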